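import Pool.Agent.Helper14.CV.StC

/-!
# Project CV, module DimE: the dimension of `antiE k`
-/

set_option autoImplicit false

namespace Pool.Agent.Helper61.CV

open Pool.Agent.Helper14.CV

/-- the group of order 16: `(a, b, s, n)`, translations `a, b`, swap `s`, sign `n` -/
structure H16 where
  a : Bool
  b : Bool
  s : Bool
  n : Bool
  deriving DecidableEq, Fintype

namespace H16

@[ext] theorem ext' {p q : H16} (h1 : p.a = q.a) (h2 : p.b = q.b) (h3 : p.s = q.s) (h4 : p.n = q.n) :
    p = q := by
  cases p; cases q; simp_all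

instance : Mul H16 := ⟨fun p q => ⟨xor p.a (cond p.s q.b q.a), xor p.b (cond p.s q.a q.b),
  xor p.s q.s, xor p.n q.n⟩⟩
instance : One H16 := ⟨⟨false, false, false, false⟩⟩
instance : Inv H16 := ⟨fun p => ⟨cond p.s p.b p.a, cond p.s p.a p.b, p.s, p.n⟩⟩

theorem mul_def (p q : H16) : p * q = ⟨xor p.a (cond p.s q.b q.a), xor p.b (cond p.s q.a q.b),
  xor p.s q.s, xor p.n q.n⟩ := rfl
theorem one_def : (1 : H16) = ⟨false, false, false, false⟩ := rfl

instance : Group H16 := Group.ofLeftAxioms
  (by
    rintro ⟨a, b, s, n⟩ ⟨a', b', s', n'⟩ ⟨a'', b'', s'', n''⟩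
    simp only [mul_def]
    cases s <;> cases s' <;> simp)
  (by
    rintro ⟨a, b, s, n⟩
    simp [mul_def, one_def])
  (by
    rintro ⟨a, b, s, n⟩
    show (⟨cond s b a, cond s a b, s, n⟩ : H16) * ⟨a, b, s, n⟩ = ⟨false, false, false, false⟩
    rw [mul_def]
    cases s <;> simp)

theorem card : Fintype.card H16 = 16 := by decide

end H16

/-- sign -/
def ub (b : Bool) : ℤˣ := if b then -1 else 1

theorem ub_xor (b c : Bool) : ub (xor b c) = ub b * ub c := by
  revert b c; decide

/-- the sign of an element -/
def wg : H16 →* ℤˣ where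
  toFun p := ub p.a * ub p.b * ub p.s * ub p.n
  map_one' := by decide
  map_mul' := by decide

section act

variable {N : ℕ} (Q : ZMod N)

/-- translation vector -/
def cQ (b : Bool) : ZMod N := if b then Q else 0

/-- sign on the coordinates -/
def sg (n : Bool) (x : ZMod N) : ZMod N := if n then -x else x

variable {Q}

theorem cQ_xor (hQ : Q + Q = 0) (a b : Bool) : cQ Q (xor a b) = cQ Q a + cQ Q b := by
  cases a <;> cases b <;> simp [cQ, hQ]

theorem sg_add (n : Bool) (x y : ZMod N) : sg n (x + y) = sg n x + sg n y := by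
  cases n <;> simp [sg]
  ring

theorem sg_cQ (hQ : Q + Q = 0) (n a : Bool) : sg n (cQ Q a) = cQ Q a := by
  have h : -Q = Q := neg_eq_of_add_eq_zero_left hQ
  cases n <;> cases a <;> simp [sg, cQ, h]

theorem sg_xor (n n' : Bool) (x : ZMod N) : sg (xor n n') x = sg n (sg n' x) := by
  cases n <;> cases n' <;> simp [sg]

/-- the action -/
@[reducible] def actH (hQ : Q + Q = 0) : MulAction H16 (ZMod N × ZMod N) where
  smul p z := (sg p.n (cond p.s z.2 z.1) + cQ Q p.a, sg p.n (cond p.s z.1 z.2) + cQ Q p.b)
  one_smul z := by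
    show (sg false z.1 + cQ Q false, sg false z.2 + cQ Q false) = z
    simp [sg, cQ]
  mul_smul p q z := by
    obtain ⟨a, b, s, n⟩ := p
    obtain ⟨a', b', s', n'⟩ := q
    obtain ⟨x, y⟩ := z
    show (sg (xor n n') (cond (xor s s') y x) + cQ Q (xor a (cond s b' a')),
      sg (xor n n') (cond (xor s s') x y) + cQ Q (xor b (cond s a' b'))) =
      (sg n (cond s (sg n' (cond s' x y) + cQ Q b') (sg n' (cond s' y x) + cQ Q a')) + cQ Q a,
        sg n (cond s (sg n' (cond s' y x) + cQ Q a') (sg n' (cond s' x y) + cQ Q b')) + cQ Q b)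
    rw [cQ_xor hQ, cQ_xor hQ]
    cases s <;> cases s' <;> simp [sg_xor, sg_add, sg_cQ hQ] <;> constructor <;> ring

end act

open Finset in
/-- the signed number of fixed points -/
theorem count {N : ℕ} [NeZero N] {Q R : ZMod N} (hQ : Q + Q = 0) (hQ0 : Q ≠ 0) (hR : R + R = Q) :
    letI := actH (N := N) hQ
    ∑ g : H16, ((wg g : ℤ) : ℂ) * (Finset.univ.filter fun i : ZMod N × ZMod N => g • i = i).card
      = (Fintype.card (ZMod N × ZMod N) : ℂ) := by
  let _ := actH (N := N) hQ
  have hd : ∀ (p : H16) (z : ZMod N × ZMod N), p • z =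
    (sg p.n (cond p.s z.2 z.1) + cQ Q p.a, sg p.n (cond p.s z.1 z.2) + cQ Q p.b) := fun p z => rfl
  set M : Bool → Bool → Bool → Bool → ℕ := fun a b s n =>
    (Finset.univ.filter fun i : ZMod N × ZMod N => (⟨a, b, s, n⟩ : H16) • i = i).card with hM
  have hQn : -Q = Q := neg_eq_of_add_eq_zero_left hQ
  have c1 : M false false false false = Fintype.card (ZMod N × ZMod N) := by
    rw [hM]
    show (Finset.univ.filter fun i : ZMod N × ZMod N => (1 : H16) • i = i).card = _
    rw [Finset.filter_true_of_mem fun i _ => one_smul H16 i, Finset.card_univ]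
  have c2 : ∀ b, M true b false false = 0 := by
    intro b
    rw [hM]
    refine Finset.card_eq_zero.2 (Finset.filter_eq_empty_iff.2 fun i _ h => ?_)
    rw [hd] at h
    have h1 := congrArg Prod.fst h
    simp [sg, cQ] at h1
    exact hQ0 h1
  have c3 : M false true false false = 0 := by
    rw [hM]
    refine Finset.card_eq_zero.2 (Finset.filter_eq_empty_iff.2 fun i _ h => ?_)
    rw [hd] at h
    have h1 := congrArg Prod.snd h
    simp [sg, cQ] at h1
    exact hQ0 h1
  have c4 : ∀ b, M false b false true = M true b false true := by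
    intro b
    rw [hM]
    refine Finset.card_bij (fun z _ => (z.1 + R, z.2)) ?_ ?_ ?_
    · intro z hz
      rw [Finset.mem_filter] at hz ⊢
      refine ⟨Finset.mem_univ _, ?_⟩
      have h := hz.2
      rw [hd] at h ⊢
      have h1 := congrArg Prod.fst h
      have h2 := congrArg Prod.snd h
      simp only [sg, cQ, cond_false, if_true, Bool.false_eq_true, if_false, add_zero] at h1 h2 ⊢
      refine Prod.ext ?_ h2
      show -(z.1 + R) + Q = z.1 + R
      linear_combination h1 - hR
    · intro z _ z' _ h
      have h1 := congrArg Prod.fst h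
      have h2 := congrArg Prod.snd h
      exact Prod.ext (add_right_cancel h1) h2
    · intro z hz
      refine ⟨(z.1 - R, z.2), ?_, by simp⟩
      rw [Finset.mem_filter] at hz ⊢
      refine ⟨Finset.mem_univ _, ?_⟩
      have h := hz.2
      rw [hd] at h ⊢
      have h1 := congrArg Prod.fst h
      have h2 := congrArg Prod.snd h
      simp only [sg, cQ, cond_false, if_true, Bool.false_eq_true, if_false, add_zero] at h1 h2 ⊢
      refine Prod.ext ?_ h2
      show -(z.1 - R) = z.1 - R
      linear_combination h1 + hR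
  have c5 : ∀ a b, M a b true false = M a b true true := by
    intro a b
    rw [hM]
    have hc : ∀ b, -(cQ Q b) = cQ Q b := fun b => by cases b <;> simp [cQ, hQn]
    refine Finset.card_bij (fun z _ => (z.1, -z.2)) ?_ ?_ ?_
    · intro z hz
      rw [Finset.mem_filter] at hz ⊢
      refine ⟨Finset.mem_univ _, ?_⟩
      have h := hz.2
      rw [hd] at h ⊢
      have h1 : z.2 + cQ Q a = z.1 := congrArg Prod.fst h
      have h2 : z.1 + cQ Q b = z.2 := congrArg Prod.snd h
      refine Prod.ext ?_ ?_
      · show -(-z.2) + cQ Q a = z.1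
        rw [neg_neg]; exact h1
      · show -z.1 + cQ Q b = -z.2
        have := hc b
        linear_combination -this - h2
    · intro z _ z' _ h
      have h1 := congrArg Prod.fst h
      have h2 := congrArg Prod.snd h
      exact Prod.ext h1 (neg_injective h2)
    · intro z hz
      refine ⟨(z.1, -z.2), ?_, by simp⟩
      rw [Finset.mem_filter] at hz ⊢
      refine ⟨Finset.mem_univ _, ?_⟩
      have h := hz.2
      rw [hd] at h ⊢
      have h1 : -z.2 + cQ Q a = z.1 := congrArg Prod.fst h
      have h2 : -z.1 + cQ Q b = z.2 := congrArg Prod.snd h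
      refine Prod.ext h1 ?_
      show z.1 + cQ Q b = -z.2
      have := hc b
      linear_combination -this - h2
  have e : ∑ g : H16, ((wg g : ℤ) : ℂ) * (Finset.univ.filter fun i : ZMod N × ZMod N => g • i = i).card
      = ∑ a : Bool, ∑ b : Bool, ∑ s : Bool, ∑ n : Bool,
        ((wg ⟨a, b, s, n⟩ : ℤ) : ℂ) * M a b s n := by
    rw [← Fintype.sum_prod_type', ← Fintype.sum_prod_type', ← Fintype.sum_prod_type']
    refine (Fintype.sum_bijective (fun t : ((Bool × Bool) × Bool) × Bool =>
      (⟨t.1.1.1, t.1.1.2, t.1.2, t.2⟩ : H16)) ?_ _ _ fun t => rfl).symm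
    constructor
    · rintro ⟨⟨⟨a, b⟩, s⟩, n⟩ ⟨⟨⟨a', b'⟩, s'⟩, n'⟩ h
      simp only [H16.mk.injEq] at h
      obtain ⟨rfl, rfl, rfl, rfl⟩ := h
      rfl
    · rintro ⟨a, b, s, n⟩
      exact ⟨⟨⟨⟨a, b⟩, s⟩, n⟩, rfl⟩
  rw [e]
  simp only [Fintype.sum_bool]
  simp only [wg, MonoidHom.coe_mk, OneHom.coe_mk, ub]
  simp [c1, c2, c3, c4, c5]
  try ring

/-- uncurried functions -/
def unc {N : ℕ} : (ZMod N → ZMod N → ℂ) ≃ₗ[ℂ] (ZMod N × ZMod N → ℂ) where
  toFun F := fun z => F z.1 z.2
  invFun G := fun x y => G (x, y)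
  left_inv _ := rfl
  right_inv _ := rfl
  map_add' _ _ := rfl
  map_smul' _ _ := rfl

theorem hDimE (hTrc : StTrc) : StDimE := by
  intro k hk
  set N := 2 ^ (k - 1) with hN
  have : NeZero N := ⟨by positivity⟩
  set Q : ZMod N := 2 ^ (k - 2) with hQd
  set R : ZMod N := 2 ^ (k - 3) with hRd
  have hQ : Q + Q = 0 := by
    have h : Q + Q = ((N : ℕ) : ZMod N) := by
      rw [hQd, hN]
      push_cast
      rw [← two_mul, ← pow_succ']
      congr 1
      omega
    rw [h, ZMod.natCast_self]
  have hR : R + R = Q := by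
    rw [hQd, hRd, ← two_mul, ← pow_succ']
    congr 1
    omega
  have hQ0 : Q ≠ 0 := by
    intro h
    have h1 : ((2 ^ (k - 2) : ℕ) : ZMod N) = 0 := by
      push_cast
      exact h
    rw [ZMod.natCast_eq_zero_iff] at h1
    have h2 := Nat.le_of_dvd (by positivity) h1
    rw [hN] at h2
    have h3 := (Nat.pow_le_pow_iff_right (by norm_num : 1 < 2)).1 h2
    omega
  let _ := actH (N := N) hQ
  have hd : ∀ (p : H16) (z : ZMod N × ZMod N), p • z =
    (sg p.n (cond p.s z.2 z.1) + cQ Q p.a, sg p.n (cond p.s z.1 z.2) + cQ Q p.b) := fun p z => rfl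
  have key := hTrc (ZMod N × ZMod N) inferInstance inferInstance H16 inferInstance inferInstance
    (actH (N := N) hQ) wg ((antiE k).map (unc (N := N)).toLinearMap) (by
      intro F
      rw [Submodule.mem_map]
      constructor
      · rintro ⟨G, hG, rfl⟩ g ⟨x, y⟩
        obtain ⟨a, b, s, n⟩ := g
        have g1 : ∀ (c : Bool) (x y : ZMod N), G (x + cQ Q c) y = ((ub c : ℤ) : ℂ) * G x y := by
          intro c x y
          cases c
          · simp [cQ, ub]
          · simp only [cQ, ub, if_true]
            rw [(hG x y).1]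
            push_cast
            ring
        have g2 : ∀ (c : Bool) (x y : ZMod N), G x (y + cQ Q c) = ((ub c : ℤ) : ℂ) * G x y := by
          intro c x y
          cases c
          · simp [cQ, ub]
          · simp only [cQ, ub, if_true]
            rw [(hG x y).2.1]
            push_cast
            ring
        have g3 : ∀ (c : Bool) (x y : ZMod N), G (sg c x) (sg c y) = ((ub c : ℤ) : ℂ) * G x y := by
          intro c x y
          cases c
          · simp [sg, ub]
          · simp only [sg, ub, if_true]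
            rw [(hG x y).2.2.2]
            push_cast
            ring
        have g4 : ∀ (c : Bool) (x y : ZMod N), G (cond c y x) (cond c x y) = ((ub c : ℤ) : ℂ) * G x y := by
          intro c x y
          cases c
          · simp [ub]
          · simp only [cond_true, ub, if_true]
            have h1 := (hG (-x) (-y)).2.2.1
            rw [neg_neg, neg_neg] at h1
            rw [h1, (hG x y).2.2.2]
            push_cast
            ring
        show G (sg n (cond s y x) + cQ Q a) (sg n (cond s x y) + cQ Q b)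
          = (((ub a * ub b * ub s * ub n : ℤˣ) : ℤ) : ℂ) * G x y
        rw [g1, g2, g3, g4]
        push_cast
        ring
      · intro h
        refine ⟨fun x y => F (x, y), ?_, rfl⟩
        intro x y
        have h1 := h ⟨true, false, false, false⟩ (x, y)
        have h2 := h ⟨false, true, false, false⟩ (x, y)
        have h3 := h ⟨false, false, true, true⟩ (x, y)
        have h4 := h ⟨false, false, false, true⟩ (x, y)
        rw [hd] at h1 h2 h3 h4
        simp only [wg, MonoidHom.coe_mk, OneHom.coe_mk, ub, sg, cQ] at h1 h2 h3 h4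
        simp at h1 h2 h3 h4
        exact ⟨h1, h2, h3, h4⟩)
  rw [count hQ hQ0 hR, H16.card] at key
  have hfr : Module.finrank ℂ ((antiE k).map (unc (N := N)).toLinearMap)
      = Module.finrank ℂ (antiE k) := by
    exact LinearEquiv.finrank_map_eq (unc (N := N)) (antiE k)
  rw [hfr, Fintype.card_prod, ZMod.card] at key
  have key2 : Module.finrank ℂ (antiE k) * 16 = N * N := by exact_mod_cast key
  have e : N * N = 4 ^ (k - 3) * 16 := by
    rw [hN, ← pow_add, show (4 : ℕ) = 2 ^ 2 by norm_num, ← pow_mul, show (16 : ℕ) = 2 ^ 4 by norm_num,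
      ← pow_add]
    congr 1
    omega
  rw [e] at key2
  exact Nat.eq_of_mul_eq_mul_right (by norm_num) key2

end Pool.Agent.Helper61.CV
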